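import Pool.Agent.U365.POW.E
import Pool.Agent.Results.MP_6e34ef_nt.UniformAbcWindows

/-!
# The uniform abc inequality for all numbers of degree `n` with height near `s(m)`, `m - φ(m)` or `α m + β f(m)`

Let `n ≥ 2`, `κ > 0` and `c₀` be real. There is a function `e(n) ≥ 0`, at most `(n + 2) (n - 1) / (4 (n - n / p))`,
`p` the least prime factor of `n`, and `O (log² n)`, with the following property. Let `s(m)` be the sum of the proper
divisors of `m`. Let `G` have steps bounded below by a positive constant and growth at most `v ^ d`, for example `G v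
= v`, `n ≥ 2`, `κ > 0`, `c₀` real, `θ ≥ 0` and `e = d e(n) / ((n + 1) κ) + θ < 1`. For a set of `m` of lower density
at least `1 - e`: for ALL number fields `K` of degree `n` and ALL `x ∈ K`, `x ≠ 0, 1`, such that the height `H = H (x,
1 - x, -1)` satisfies that `H ^ (n (n + 1))` differs from `G (s(m))` by at most `s(m) ^ θ`, the inequality `H ≤ exp
(c₀) (δ_K N) ^ κ` holds; and the same holds for `m - φ(m)` in place of `s(m)`. More precisely this holds for almost
all `m` with a divisor `≥ m ^ (e + ρ)` which is a prime or the product of two different primes, and for the values `g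
= α m + β f(m)` of multiplicative functions with `f p = p + c` at the primes, uniformly in `|α|, |β| ≤ N ^ δ` and with
a power saving in the number of the exceptional `m`.

As `κ` may be large, `e` may be as close to `θ` as we like. Proof. The starting theorem `FewViolators` of this problem
bounds the number of the exceptions with `H ^ (n (n + 1)) ≤ X` by `X ^ (e(n) / ((n + 1) κ) + ε)` (in the form
`UniformAbcWindows.count`). Let `m = k v p` with large primes `p ≠ v`. Then `g = A v p + B (v + p) + B c`, `A = α k +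
β f(k)`, `B = β c f(k)`, and so `(A v + B) (A p + B) = A g + B² - A B c`: for given `g`, `k`, `α`, `β` there are only
`N^o(1)` possibilities for `p` and `v` (tool `Pool.Agent.U365.POW`).
-/

set_option autoImplicit false

namespace Pool.Agent.Results.MP_6e34ef_nt.AliquotValues

open NumberField IsDedekindDomain Filter Topology
open FewViolators (height conductor rootDisc expo)
open UniformAbcWindows (ht Exc)
open Pool.Agent.U365.POW (Values Dens values_set values_mono dens_mono)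
open Pool.Agent.N733.TG (Expanding)

/-- for all number fields `K` of degree `n` (in the algebraic closure of `ℚ`) and all `x ∈ K`, `x ≠ 0, 1`, such that the height
`H = exp (height ![x, 1 - x, -1])` satisfies `|H ^ (n (n + 1)) - G v| ≤ v ^ θ` the inequality
`log H ≤ κ (log δ_K + log N) + c₀` holds -/
def Near (n : ℕ) (κ c₀ : ℝ) (G : ℕ → ℝ) (θ : ℝ) (v : ℕ) : Prop :=
  ∀ (K : IntermediateField ℚ (AlgebraicClosure ℚ)) [NumberField K] (x : K), Module.finrank ℚ K = n → x ≠ 0 → x ≠ 1 →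
    |Real.exp (height ![x, 1 - x, -1]) ^ (n * (n + 1)) - G v| ≤ (v : ℝ) ^ θ →
      height ![x, 1 - x, -1] ≤ κ * (rootDisc K + conductor ![x, 1 - x, -1]) + c₀

lemma main_e : ∃ e : ℕ → ℝ, (∀ n, 0 ≤ e n) ∧ (∀ n : ℕ, 2 ≤ n → e n ≤ expo n) ∧
    (∀ c : ℝ, 1 / (8 * (Real.log 2) ^ 2) < c → ∀ᶠ n : ℕ in atTop, e n ≤ c * (Real.log n) ^ 2) ∧
    ∀ (n : ℕ) (κ c : ℝ), 2 ≤ n → 0 < κ → ∀ ε : ℝ, 0 < ε →
      ∃ C : ℝ, ∀ X : ℝ, 1 ≤ X → {p | p ∈ Exc n κ c ∧ Real.exp (ht p) ^ (n * (n + 1)) ≤ X}.Finite ∧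
      ({p | p ∈ Exc n κ c ∧ Real.exp (ht p) ^ (n * (n + 1)) ≤ X}.ncard : ℝ) ≤ C * X ^ (e n / ((n + 1) * κ) + ε) := by
  obtain ⟨e, he1, he2, he3⟩ := FewViolators.result.1
  have hexpo : ∀ n : ℕ, 0 ≤ expo n := fun n => by
    unfold expo
    positivity
  refine ⟨fun n => max (e n) 0, fun n => le_max_right _ _, fun n hn => max_le (he2 n hn) (hexpo n), fun c hc => ?_,
    fun n κ c hn hκ ε hε => UniformAbcWindows.count hn hκ (he3 n hn κ c · hκ ·) ε hε⟩
  have hc0 : 0 < c := lt_trans (by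
    have := Real.log_pos (by norm_num : (1 : ℝ) < 2)
    positivity) hc
  filter_upwards [he1 c hc] with n hn
  exact max_le hn (by positivity)

lemma near_of {n : ℕ} {κ c₀ θ : ℝ} {G : ℕ → ℝ} {v : ℕ}
    (h : ∀ t ∈ Exc n κ c₀, ¬ |Real.exp (ht t) ^ (n * (n + 1)) - G v| ≤ (v : ℝ) ^ θ) : Near n κ c₀ G θ v := by
  intro K hK x hd hx0 hx1 hw
  by_contra hcon
  push Not at hcon
  refine h ⟨⟨K, hK⟩, x⟩ ⟨hd, hx0, hx1, ?_⟩ hw
  show c₀ + κ * (rootDisc K + conductor ![x, 1 - x, -1]) < height ![x, 1 - x, -1]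
  linarith

/-- **Theorem.** Let `G` have steps `≥ a > 0` and growth at most `v ^ d`, `n ≥ 2`, `κ > 0`, `c₀` real, `θ ≥ 0` and `e = d
e(n) / ((n + 1) κ) + θ < 1`. For every `ρ > 0` the property `Near` holds for the values of similar functions as the
aliquot sum (`Values`: for `s(m)`, for `m - φ(m)` and for all `α m + β f(m)`, for almost all the `m` with a divisor `≥
m ^ (e + ρ)` which is a prime or the product of two different primes), and it holds for `s(m)` and `m - φ(m)` for a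
set of `m` of lower density at least `1 - e`. -/
theorem result : ∃ e : ℕ → ℝ, (∀ n, 0 ≤ e n) ∧ (∀ n : ℕ, 2 ≤ n → e n ≤ expo n) ∧
    (∀ c : ℝ, 1 / (8 * (Real.log 2) ^ 2) < c → ∀ᶠ n : ℕ in atTop, e n ≤ c * (Real.log n) ^ 2) ∧
    ∀ (G : ℕ → ℝ) (d : ℝ), Expanding G d → ∀ (n : ℕ) (κ c₀ : ℝ) (θ : ℝ),
    2 ≤ n → 0 < κ → 0 ≤ θ → d * (e n / ((n + 1) * κ)) + θ < 1 →
    (∀ ρ : ℝ, 0 < ρ → Values (d * (e n / ((n + 1) * κ)) + θ + ρ) (Near n κ c₀ G θ)) ∧
      Dens (1 - (d * (e n / ((n + 1) * κ)) + θ)) (Near n κ c₀ G θ) := by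
  obtain ⟨e, he0, he1, he2, he3⟩ := main_e
  refine ⟨e, he0, he1, he2, ?_⟩
  intro G d hG n κ c₀ θ hn hκ hθ h1
  obtain ⟨h2, h3⟩ := values_set (Exc n κ c₀) (fun p => Real.exp (ht p) ^ (n * (n + 1))) hG (s := (e n / ((n + 1) * κ))) (div_nonneg (he0 n) (by positivity)) hθ h1
    (he3 n κ c₀ hn hκ)
  have hm : ∀ g : ℕ, (∀ t, |Real.exp (ht t) ^ (n * (n + 1)) - G g| ≤ (g : ℝ) ^ θ → t ∉ (Exc n κ c₀)) → Near n κ c₀ G θ g :=
    fun g hg => near_of (fun t ht hw => hg t hw ht)
  exact ⟨fun ρ hρ => values_mono (h2 ρ hρ) hm, dens_mono h3 le_rfl hm⟩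

end Pool.Agent.Results.MP_6e34ef_nt.AliquotValues
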