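import Pool.Agent.U536.CF.F
import Pool.Agent.Results.MP_6e34ef_nt.UniformAbcWindows

/-!
# The uniform abc inequality for all numbers of degree `n` with height near an integer with a large common factor with a value of `f`

Let `n ≥ 2`, `κ > 0` and `c₀` be real. There is a function `e(n) ≥ 0`, at most `(n + 2) (n - 1) / (4 (n - n / p))`,
`p` the least prime factor of `n`, and `O (log² n)`, with the following property. Let `f` be a positive multiplicative
function of at most polynomial growth such that `f p ≤ M p` for the large primes `p`, with different values at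
different large primes; for example Euler's function or the sum of the divisors. Let `G` have steps bounded below by a
positive constant and growth at most `v^d`, for example `α v^d`. Let `b < 1` and `0 ≤ c < 2 b - 1`. For all `m ≤ N`
but `N exp (-(log N)^c)`, for EVERY integer `w ≥ exp ((log N)^b)` with `gcd(w, f(m)) ≥ w^ρ`: for ALL number fields `K`
of degree `n` and ALL `x ∈ K`, `x ≠ 0, 1`, such that the height `H = H (x, 1 - x, -1)` satisfies that `H ^ (n (n +
1))` differs from `G w` by at most `w ^ θ`, the inequality `H ≤ exp (c₀) (δ_K N) ^ κ` holds, if `n ≥ 2`, `κ > 0`, `c₀`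
real, `θ ≥ 0` and `d e(n) / ((n + 1) κ) + θ < ρ ≤ 1`. The integers `w` include all large divisors of `f(m)` and their
multiples by small integers; for Euler's function, the orders of the elements of the group of units modulo `m`.

As `κ` may be large, every `ρ > θ` is possible. Proof. The tool `Pool.Agent.U536.CF` bounds the number of the `m ≤ N`
for which such a `w` lies in a given set with a power saving, by Hölder's inequality for the number of the ordered
factorizations. The starting theorem `FewViolators` of this problem bounds the number of the exceptions with `H ^ (n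
(n + 1)) ≤ X` by `X ^ (e(n) / ((n + 1) κ) + ε)` (in the form `UniformAbcWindows.count`).
-/

set_option autoImplicit false

namespace Pool.Agent.Results.MP_6e34ef_nt.CommonFactors

open NumberField IsDedekindDomain Filter Topology
open FewViolators (height conductor rootDisc expo)
open UniformAbcWindows (ht Exc)
open Pool.Agent.N733.TG (LM Expanding lm_totient lm_sigma expanding_pow)
open Pool.Agent.U536.CF (Common common_windows common_of_dvd common_order)

/-- for all number fields `K` of degree `n` (in the algebraic closure of `ℚ`) and all `x ∈ K`, `x ≠ 0, 1`, such that the height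
`H = exp (height ![x, 1 - x, -1])` satisfies `|H ^ (n (n + 1)) - G v| ≤ v ^ θ` the inequality
`log H ≤ κ (log δ_K + log N) + c₀` holds -/
def Near (n : ℕ) (κ c₀ : ℝ) (G : ℕ → ℝ) (θ : ℝ) (v : ℕ) : Prop :=
  ∀ (K : IntermediateField ℚ (AlgebraicClosure ℚ)) [NumberField K] (x : K), Module.finrank ℚ K = n → x ≠ 0 → x ≠ 1 →
    |Real.exp (height ![x, 1 - x, -1]) ^ (n * (n + 1)) - G v| ≤ (v : ℝ) ^ θ →
      height ![x, 1 - x, -1] ≤ κ * (rootDisc K + conductor ![x, 1 - x, -1]) + c₀

lemma main_e : ∃ e : ℕ → ℝ, (∀ n, 0 ≤ e n) ∧ (∀ n : ℕ, 2 ≤ n → e n ≤ expo n) ∧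
    (∀ c : ℝ, 1 / (8 * (Real.log 2) ^ 2) < c → ∀ᶠ n : ℕ in atTop, e n ≤ c * (Real.log n) ^ 2) ∧
    ∀ (n : ℕ) (κ c : ℝ), 2 ≤ n → 0 < κ → ∀ ε : ℝ, 0 < ε →
      ∃ C : ℝ, ∀ X : ℝ, 1 ≤ X → {p | p ∈ Exc n κ c ∧ Real.exp (ht p) ^ (n * (n + 1)) ≤ X}.Finite ∧
      ({p | p ∈ Exc n κ c ∧ Real.exp (ht p) ^ (n * (n + 1)) ≤ X}.ncard : ℝ) ≤ C * X ^ (e n / ((n + 1) * κ) + ε) := by
  obtain ⟨e, he1, he2, he3⟩ := FewViolators.result.1
  have hexpo : ∀ n : ℕ, 0 ≤ expo n := fun n => by
    unfold expo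
    positivity
  refine ⟨fun n => max (e n) 0, fun n => le_max_right _ _, fun n hn => max_le (he2 n hn) (hexpo n), fun c hc => ?_,
    fun n κ c hn hκ ε hε => UniformAbcWindows.count hn hκ (he3 n hn κ c · hκ ·) ε hε⟩
  have hc0 : 0 < c := lt_trans (by
    have := Real.log_pos (by norm_num : (1 : ℝ) < 2)
    positivity) hc
  filter_upwards [he1 c hc] with n hn
  exact max_le hn (by positivity)

lemma near_of {n : ℕ} {κ c₀ θ : ℝ} {G : ℕ → ℝ} {v : ℕ}
    (h : ∀ t ∈ Exc n κ c₀, ¬ |Real.exp (ht t) ^ (n * (n + 1)) - G v| ≤ (v : ℝ) ^ θ) : Near n κ c₀ G θ v := by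
  intro K hK x hd hx0 hx1 hw
  by_contra hcon
  push Not at hcon
  refine h ⟨⟨K, hK⟩, x⟩ ⟨hd, hx0, hx1, ?_⟩ hw
  show c₀ + κ * (rootDisc K + conductor ![x, 1 - x, -1]) < height ![x, 1 - x, -1]
  linarith

/-- **The uniform abc inequality for all numbers of degree `n` with height near all integers with a large common factor
with a value of a multiplicative function.** Let `f` be multiplicative and positive, of at most polynomial growth,
with `f p ≤ M p` at the large primes, and injective there. Let `G` have steps `≥ a > 0` and growth at most `v^d`. Let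
`b < 1` and `0 ≤ c < 2 b - 1`, `n ≥ 2`, `κ > 0`, `c₀` real, `θ ≥ 0` and `d e(n) / ((n + 1) κ) + θ < ρ ≤ 1`. For all
large `N`, for all `m ≤ N` but `N exp (-(log N)^c)`, the property `Near` holds at EVERY integer `w ≥ exp ((log N)^b)`
with `gcd(w, f(m)) ≥ w^ρ`. All divisors `w ≥ exp ((log N)^b)` of `f(m)` are such integers `w`, and for Euler's
function the orders `≥ exp ((log N)^b)` of the units modulo `m`. Euler's function and the sum of the divisors are
examples of `f`, and `α v^d` with `α > 0`, `d ≥ 1` is an example of `G`. -/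
theorem result :
    (∃ e : ℕ → ℝ, (∀ n, 0 ≤ e n) ∧ (∀ n : ℕ, 2 ≤ n → e n ≤ expo n) ∧
    (∀ c : ℝ, 1 / (8 * (Real.log 2) ^ 2) < c → ∀ᶠ n : ℕ in atTop, e n ≤ c * (Real.log n) ^ 2) ∧
    ∀ f : ℕ → ℕ, LM f → ∀ (G : ℕ → ℝ) (d : ℝ), Expanding G d → ∀ (n : ℕ) (κ c₀ : ℝ)
      (θ ρ b c : ℝ), 2 ≤ n → 0 < κ → 0 ≤ θ → d * (e n / ((n + 1) * κ)) + θ < ρ → ρ ≤ 1 → b < 1 → 0 ≤ c → c < 2 * b - 1 →
      ∃ N₀ : ℕ, ∀ N : ℕ, N₀ ≤ N →
        ({m : ℕ | 1 ≤ m ∧ m ≤ N ∧ ¬ ∀ w : ℕ, Common f b ρ N m w → Near n κ c₀ G θ w}.ncard : ℝ) ≤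
          N * Real.exp (-(Real.log N ^ c))) ∧
    (LM Nat.totient ∧ LM (fun m => ∑ d ∈ m.divisors, d)) ∧
    (∀ α d : ℝ, 0 < α → 1 ≤ d → Expanding (fun v => α * (v : ℝ) ^ d) d) ∧
    (∀ (f : ℕ → ℕ) (b ρ : ℝ) (N m w : ℕ), ρ ≤ 1 → Real.exp (Real.log N ^ b) ≤ (w : ℝ) → w ∣ f m → Common f b ρ N m w) ∧
    ∀ (b ρ : ℝ) (N m : ℕ), ρ ≤ 1 → ∀ x : (ZMod m)ˣ, Real.exp (Real.log N ^ b) ≤ (orderOf x : ℝ) →
      Common Nat.totient b ρ N m (orderOf x) := by
  refine ⟨?_, ⟨lm_totient, lm_sigma⟩, fun α d hα hd => expanding_pow hα hd, fun f b ρ N m w hρ hw hd => common_of_dvd hρ hw hd,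
    fun b ρ N m hρ x hx => common_order hρ x hx⟩
  obtain ⟨e, he0, he1, he2, he3⟩ := main_e
  refine ⟨e, he0, he1, he2, ?_⟩
  intro f hf G d hG n κ c₀ θ ρ b c hn hκ hθ h1 hρ hb hc hcb
  obtain ⟨N₀, hN₀⟩ := common_windows (Exc n κ c₀) (fun p => Real.exp (ht p) ^ (n * (n + 1))) hf hG (s := (e n / ((n + 1) * κ))) (div_nonneg (he0 n) (by positivity)) hθ h1 hρ hb hc hcb
    (he3 n κ c₀ hn hκ)
  refine ⟨N₀, fun N hN => le_trans (Nat.cast_le.2 (Set.ncard_le_ncard ?_ ?_)) (hN₀ N hN)⟩
  · rintro m ⟨h2, h3, h4⟩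
    push Not at h4
    obtain ⟨w, hw, h5⟩ := h4
    refine ⟨h2, h3, w, hw, ?_⟩
    by_contra hcon
    push Not at hcon
    exact h5 (near_of (fun t ht => not_le.2 (hcon t ht)))
  · exact (Set.finite_Icc 1 N).subset fun m hm => ⟨hm.1, hm.2.1⟩

end Pool.Agent.Results.MP_6e34ef_nt.CommonFactors
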