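import Pool.Agent.U405.RS.F2
import Pool.Agent.Results.MP_6e34ef_nt.UniformAbcWindows

/-!
# The uniform abc inequality for all numbers of degree `n` with height near a value of `f` at thin sets of arguments

Let `n ≥ 2`, `κ > 0` and `c₀` be real. There is a function `e(n) ≥ 0`, at most `(n + 2) (n - 1) / (4 (n - n / p))`,
`p` the least prime factor of `n`, and `O (log² n)`, with the following property. Let `f` be a positive multiplicative
function of at most polynomial growth which for each `a ≥ 1` is injective at the powers `p ^ a` of the large primes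
and at most `M p ^ a` there; for example Euler's function or the sum of the divisors. Let `G` have steps bounded below
by a positive constant and growth at most `v ^ d`, for example `α v ^ d` with `α > 0` and `d ≥ 1`. Let `θ ≥ 0` and `e
= d e(n) / ((n + 1) κ) + θ`. for ALL number fields `K` of degree `n` and ALL `x ∈ K`, `x ≠ 0, 1`, such that the height
`H = H (x, 1 - x, -1)` satisfies that `H ^ (n (n + 1))` differs from `G (f v)` by at most `(f v) ^ θ`, the inequality
`H ≤ exp (c₀) (δ_K N) ^ κ` holds, for almost all `v` (with a saving of any power of the logarithm) in each of these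
sets:

* the values of any integer polynomial without repeated roots, of degree `< 1 / e`;
* the shifted primes `p + a`, `a` any integer, if `e < 1`;
* the intervals `(x, x + y]`, `x^τ ≤ y ≤ x`, for every `τ > e`, `τ ≤ 1`.

There are about `X` numbers `x` of degree `n` with `H ^ (n (n + 1)) ≤ X`. Proof. The tool `Pool.Agent.U405.RS`
(weighted Rankin method) shows that the values of `f` at almost all elements of these sets avoid every set with a
power saving. The starting theorem `FewViolators` of this problem bounds the number of the exceptions with `H ^ (n (n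
+ 1)) ≤ X` by `X ^ (e(n) / ((n + 1) κ) + ε)` (in the form `UniformAbcWindows.count`).
-/

set_option autoImplicit false

namespace Pool.Agent.Results.MP_6e34ef_nt.SparseArguments

open NumberField IsDedekindDomain Filter Topology
open FewViolators (height conductor rootDisc expo)
open UniformAbcWindows (ht Exc)
open Pool.Agent.N733.TG (Expanding expanding_pow)
open Pool.Agent.U405.RS (PM Sparse sparse_set' examples)

/-- for all number fields `K` of degree `n` (in the algebraic closure of `ℚ`) and all `x ∈ K`, `x ≠ 0, 1`, such that the height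
`H = exp (height ![x, 1 - x, -1])` satisfies `|H ^ (n (n + 1)) - G v| ≤ v ^ θ` the inequality
`log H ≤ κ (log δ_K + log N) + c₀` holds -/
def Near (n : ℕ) (κ c₀ : ℝ) (G : ℕ → ℝ) (θ : ℝ) (v : ℕ) : Prop :=
  ∀ (K : IntermediateField ℚ (AlgebraicClosure ℚ)) [NumberField K] (x : K), Module.finrank ℚ K = n → x ≠ 0 → x ≠ 1 →
    |Real.exp (height ![x, 1 - x, -1]) ^ (n * (n + 1)) - G v| ≤ (v : ℝ) ^ θ →
      height ![x, 1 - x, -1] ≤ κ * (rootDisc K + conductor ![x, 1 - x, -1]) + c₀

lemma main_e : ∃ e : ℕ → ℝ, (∀ n, 0 ≤ e n) ∧ (∀ n : ℕ, 2 ≤ n → e n ≤ expo n) ∧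
    (∀ c : ℝ, 1 / (8 * (Real.log 2) ^ 2) < c → ∀ᶠ n : ℕ in atTop, e n ≤ c * (Real.log n) ^ 2) ∧
    ∀ (n : ℕ) (κ c : ℝ), 2 ≤ n → 0 < κ → ∀ ε : ℝ, 0 < ε →
      ∃ C : ℝ, ∀ X : ℝ, 1 ≤ X → {p | p ∈ Exc n κ c ∧ Real.exp (ht p) ^ (n * (n + 1)) ≤ X}.Finite ∧
      ({p | p ∈ Exc n κ c ∧ Real.exp (ht p) ^ (n * (n + 1)) ≤ X}.ncard : ℝ) ≤ C * X ^ (e n / ((n + 1) * κ) + ε) := by
  obtain ⟨e, he1, he2, he3⟩ := FewViolators.result.1
  have hexpo : ∀ n : ℕ, 0 ≤ expo n := fun n => by
    unfold expo
    positivity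
  refine ⟨fun n => max (e n) 0, fun n => le_max_right _ _, fun n hn => max_le (he2 n hn) (hexpo n), fun c hc => ?_,
    fun n κ c hn hκ ε hε => UniformAbcWindows.count hn hκ (he3 n hn κ c · hκ ·) ε hε⟩
  have hc0 : 0 < c := lt_trans (by
    have := Real.log_pos (by norm_num : (1 : ℝ) < 2)
    positivity) hc
  filter_upwards [he1 c hc] with n hn
  exact max_le hn (by positivity)

lemma near_of {n : ℕ} {κ c₀ θ : ℝ} {G : ℕ → ℝ} {v : ℕ}
    (h : ∀ t ∈ Exc n κ c₀, ¬ |Real.exp (ht t) ^ (n * (n + 1)) - G v| ≤ (v : ℝ) ^ θ) : Near n κ c₀ G θ v := by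
  intro K hK x hd hx0 hx1 hw
  by_contra hcon
  push Not at hcon
  refine h ⟨⟨K, hK⟩, x⟩ ⟨hd, hx0, hx1, ?_⟩ hw
  show c₀ + κ * (rootDisc K + conductor ![x, 1 - x, -1]) < height ![x, 1 - x, -1]
  linarith

/-- **The uniform abc inequality for all numbers of degree `n` with height near the values of `f` at thin sets of
arguments.** Let `f` be in the class `PM`, let `G` have steps `≥ const > 0` and growth at most `v ^ d`, `n ≥ 2`, `κ >
0`, `c₀` real, `θ ≥ 0`. For every `U` the property `Near` holds in the sense `Sparse e f`, `e = d e(n) / ((n + 1) κ) +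
θ`: with a saving of `(log x)^U` it holds at `f v` for almost all `v` among the positive values of every integer
polynomial without repeated roots of degree `< 1 / e`; among the shifted primes `p + a` for every `a`, if `e < 1`; and
in all intervals `(x, x + y]`, `x^τ ≤ y ≤ x`, `e < τ ≤ 1`. Euler's function, the sum of the divisors and the identity
are in the class, and `α v^d` with `α > 0`, `d ≥ 1` is an example of `G`. -/
theorem result :
    (∃ e : ℕ → ℝ, (∀ n, 0 ≤ e n) ∧ (∀ n : ℕ, 2 ≤ n → e n ≤ expo n) ∧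
    (∀ c : ℝ, 1 / (8 * (Real.log 2) ^ 2) < c → ∀ᶠ n : ℕ in atTop, e n ≤ c * (Real.log n) ^ 2) ∧
    ∀ f : ℕ → ℕ, PM f → ∀ (G : ℕ → ℝ) (d : ℝ), Expanding G d → ∀ (n : ℕ) (κ c₀ : ℝ) (θ : ℝ),
      2 ≤ n → 0 < κ → 0 ≤ θ → ∀ U : ℕ, Sparse (d * (e n / ((n + 1) * κ)) + θ) f (Near n κ c₀ G θ) U) ∧
    (PM Nat.totient ∧ PM (fun m => ∑ d ∈ m.divisors, d) ∧ PM (fun m => m)) ∧
    ∀ α d : ℝ, 0 < α → 1 ≤ d → Expanding (fun v => α * (v : ℝ) ^ d) d := by
  refine ⟨?_, examples, fun α d hα hd => expanding_pow hα hd⟩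
  obtain ⟨e, he0, he1, he2, he3⟩ := main_e
  refine ⟨e, he0, he1, he2, ?_⟩
  intro f hf G d hG n κ c₀ θ hn hκ hθ U
  exact sparse_set' (Exc n κ c₀) (fun p => Real.exp (ht p) ^ (n * (n + 1))) hf hG (s := (e n / ((n + 1) * κ))) (div_nonneg (he0 n) (by positivity)) hθ rfl
    (he3 n κ c₀ hn hκ) _ U (fun v hv => near_of hv)

end Pool.Agent.Results.MP_6e34ef_nt.SparseArguments
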