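import Pool.Agent.U221.CD.Cond
import Pool.Agent.U221.CD.Frz

/-!
# The uniform abc conjecture and the points of tiny height on Fermat curves

Let `κ ≥ 0` (`κ = 1` is the uniform abc conjecture), let `P` be a set of primes and `ψ` a function on it, such that
`ψ (p) ≤ p` and `ψ (p)` grows faster than `log p` (for instance all primes and `ψ (p) = (log p) ^ (1 + θ)`). The
following are equivalent.

1. For all `ε > 0` there is `C` such that `H (a, b, c) ≤ C δ_K ^ (κ + ε) N (a, b, c) ^ (κ + ε)` for all number fields `K`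
  and all nonzero `a, b, c ∈ K` with `a + b + c = 0`.
2. For all `ε > 0` there are `C` and `M` such that `H (a, b, c) ≤ C δ_K ^ (κ + ε) N (a, b, c) ^ M` for all these.
3. For all `ε > 0` there is `C` such that for all number fields `K`, all `p ∈ P` and all `u, v ∈ K ^ ×` with
  `u ^ p + v ^ p = 1` and `H (u, v, 1) ≤ exp (ψ (p) / p)` the inequality `H (u, v, 1) ^ p ≤ C δ_K ^ (κ + ε)` holds.

The main point is that the root discriminant of a field which contains `x ^ (1 / p)` and `(1 - x) ^ (1 / p)` can be taken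
to be at most `p ^ 2 δ_K N (x, 1 - x, -1)`, where `p` is any prime; we choose it near `ψ⁻¹ (log H (x, 1 - x, -1))`.
-/

set_option autoImplicit false

namespace Pool.Agent.Results.MP_6e34ef_nt.TinyFermatPoints

open NumberField IsDedekindDomain Filter Topology Classical
open Pool.Agent.U221.CD

/-- `log H(x_0, x_1, x_2)`: Mathlib's logarithmic height, divided by the degree of the field. -/
noncomputable def height {K : Type} [Field K] [NumberField K] (x : Fin 3 → K) : ℝ :=
  Height.logHeight x / Module.finrank ℚ K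

/-- `log N(x_0, x_1, x_2)`: the sum of `log #(𝓞 K / v) / [K : ℚ]` over the primes `v` at which the
absolute values of `x_0, x_1, x_2` are not all equal. -/
noncomputable def conductor {K : Type} [Field K] [NumberField K] (x : Fin 3 → K) : ℝ :=
  (∑ᶠ v : HeightOneSpectrum (𝓞 K),
      if ¬ (v.valuation K (x 0) = v.valuation K (x 1) ∧ v.valuation K (x 1) = v.valuation K (x 2))
      then Real.log (Ideal.absNorm v.asIdeal) else 0) / Module.finrank ℚ K

/-- `log δ_K` -/
noncomputable def rootDisc (K : Type) [Field K] [NumberField K] : ℝ :=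
  Real.log |(NumberField.discr K : ℝ)| / Module.finrank ℚ K

/-- `H (a, b, c) ≤ exp (C) δ_K ^ α N (a, b, c) ^ β` for all number fields `K` and all nonzero
`a, b, c ∈ K` with `a + b + c = 0` -/
def Abc (α β C : ℝ) : Prop :=
  ∀ (K : Type) [Field K] [NumberField K] (x : Fin 3 → K), x 0 ≠ 0 → x 1 ≠ 0 → x 2 ≠ 0 →
    x 0 + x 1 + x 2 = 0 → height x ≤ α * rootDisc K + β * conductor x + C

/-- `H (u, v, 1) ^ p ≤ exp (C) δ_K ^ α` for all number fields `K`, all `p ∈ P` and all
`u, v ∈ K ^ ×` with `u ^ p + v ^ p = 1` and `H (u, v, 1) ^ p ≤ exp (ψ p)` -/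
def Tiny (P : Set ℕ) (ψ : ℕ → ℝ) (α C : ℝ) : Prop :=
  ∀ (K : Type) [Field K] [NumberField K], ∀ p ∈ P, ∀ u v : K, u ≠ 0 → v ≠ 0 → u ^ p + v ^ p = 1 →
    p * height ![u, v, 1] ≤ ψ p → p * height ![u, v, 1] ≤ α * rootDisc K + C

/-- `P` is a set of primes, `ψ p ≤ p` for `p ∈ P`, and for each `ε > 0` there is `C` such that for
all `t ≥ 0` there is `p ∈ P` with `ψ p ≥ t` and `log p ≤ ε t + C` -/
structure Admissible (P : Set ℕ) (ψ : ℕ → ℝ) : Prop where
  prime : ∀ p ∈ P, p.Prime
  le : ∀ p ∈ P, ψ p ≤ p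
  fast : ∀ ε : ℝ, 0 < ε → ∃ C : ℝ, ∀ t : ℝ, 0 ≤ t → ∃ p ∈ P, t ≤ ψ p ∧ Real.log p ≤ ε * t + C

section

variable {K : Type} [Field K] [NumberField K]

theorem finrank_pos' : (0 : ℝ) < Module.finrank ℚ K := deg_pos

theorem height_nonneg (x : Fin 3 → K) : 0 ≤ height x :=
  div_nonneg (Height.logHeight_nonneg x) deg_pos.le

theorem rootDisc_eq : rootDisc K = rd K := rfl

theorem conductor_eq (x : Fin 3 → K) (W : Finset (HeightOneSpectrum (𝓞 K)))
    (hW : ∀ v : HeightOneSpectrum (𝓞 K),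
      ¬ (v.valuation K (x 0) = v.valuation K (x 1) ∧ v.valuation K (x 1) = v.valuation K (x 2)) → v ∈ W) :
    conductor x = (∑ v ∈ W, if ¬ (v.valuation K (x 0) = v.valuation K (x 1) ∧
      v.valuation K (x 1) = v.valuation K (x 2)) then Real.log (Ideal.absNorm v.asIdeal : ℝ) else 0) /
        Module.finrank ℚ K := by
  unfold conductor
  congr 1
  refine finsum_eq_sum_of_support_subset _ ?_
  intro v hv
  rw [Function.mem_support] at hv
  by_contra hc
  exact hv (if_neg fun h => hc (hW v h))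

/-- signs do not matter -/
theorem height_neg (a b c : K) : height ![a, b, -c] = height ![a, b, c] := by
  have h1 := Height.logHeight_pow ![a, b, -c] 2
  have h2 := Height.logHeight_pow ![a, b, c] 2
  have e : ![a, b, -c] ^ 2 = ![a, b, c] ^ 2 := by
    funext i
    fin_cases i
    · rfl
    · rfl
    · show (-c) ^ 2 = c ^ 2
      ring
  rw [e, h2] at h1
  unfold height
  congr 1
  push_cast at h1
  linarith

theorem height_smul (x : Fin 3 → K) {c : K} (hc : c ≠ 0) : height (c • x) = height x := by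
  unfold height
  rw [Height.logHeight_smul_eq_logHeight x hc]

theorem height_pow (u v : K) (p : ℕ) : height ![u ^ p, v ^ p, 1] = p * height ![u, v, 1] := by
  have e : ![u ^ p, v ^ p, 1] = ![u, v, 1] ^ p := by
    funext i
    fin_cases i
    · rfl
    · rfl
    · exact (one_pow p).symm
  unfold height
  rw [e, Height.logHeight_pow]
  ring

theorem height₁_le (u v : K) : Height.logHeight₁ u ≤ Height.logHeight ![u, v, 1] ∧
    Height.logHeight₁ v ≤ Height.logHeight ![u, v, 1] := by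
  constructor
  · rw [Height.logHeight₁_eq_logHeight]
    have h := Height.logHeight_comp_le (![0, 2] : Fin 2 → Fin 3) ![u, v, 1]
    have e : ![u, v, 1] ∘ (![0, 2] : Fin 2 → Fin 3) = ![u, 1] := by
      funext i
      fin_cases i <;> rfl
    rw [e] at h
    exact h
  · rw [Height.logHeight₁_eq_logHeight]
    have h := Height.logHeight_comp_le (![1, 2] : Fin 2 → Fin 3) ![u, v, 1]
    have e : ![u, v, 1] ∘ (![1, 2] : Fin 2 → Fin 3) = ![v, 1] := by
      funext i
      fin_cases i <;> rfl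
    rw [e] at h
    exact h

/-- the conductor of a point of small height is small -/
theorem conductor_le {u v : K} (hu : u ≠ 0) (hv : v ≠ 0) {p : ℕ} :
    conductor ![u ^ p, v ^ p, -1] ≤ 4 * height ![u, v, 1] := by
  set W := (val_finite hu).toFinset ∪ (val_finite hv).toFinset with hW
  have hbad : ∀ w : HeightOneSpectrum (𝓞 K),
      ¬ (w.valuation K (u ^ p) = w.valuation K (v ^ p) ∧ w.valuation K (v ^ p) = w.valuation K (-1)) →
      w.valuation K u ≠ 1 ∨ w.valuation K v ≠ 1 := by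
    intro w hw
    by_contra hcon
    push Not at hcon
    apply hw
    rw [map_pow, map_pow, hcon.1, hcon.2, Valuation.map_neg, map_one]
    exact ⟨rfl, one_pow p⟩
  rw [conductor_eq _ W (by
    intro w hw
    have h1 := hbad w hw
    rw [hW, Finset.mem_union, Set.Finite.mem_toFinset, Set.Finite.mem_toFinset]
    exact h1)]
  have h1 := sum_le_height' hu W
  have h2 := sum_le_height' hv W
  obtain ⟨h3, h4⟩ := height₁_le u v
  have h5 : (∑ w ∈ W, if ¬ (w.valuation K (![u ^ p, v ^ p, -1] 0) = w.valuation K (![u ^ p, v ^ p, -1] 1) ∧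
      w.valuation K (![u ^ p, v ^ p, -1] 1) = w.valuation K (![u ^ p, v ^ p, -1] 2)) then
        Real.log (Ideal.absNorm w.asIdeal : ℝ) else 0) ≤
      ∑ w ∈ W, (if w.valuation K u ≠ 1 then Real.log (Ideal.absNorm w.asIdeal : ℝ) else 0) +
      ∑ w ∈ W, (if w.valuation K v ≠ 1 then Real.log (Ideal.absNorm w.asIdeal : ℝ) else 0) := by
    rw [← Finset.sum_add_distrib]
    refine Finset.sum_le_sum fun w _ => ?_
    have hl := log_norm_nonneg w
    by_cases a : ¬ (w.valuation K (![u ^ p, v ^ p, -1] 0) = w.valuation K (![u ^ p, v ^ p, -1] 1) ∧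
      w.valuation K (![u ^ p, v ^ p, -1] 1) = w.valuation K (![u ^ p, v ^ p, -1] 2))
    · rw [if_pos a]
      rcases hbad w a with h | h
      · rw [if_pos h]
        split_ifs <;> linarith
      · rw [if_pos h]
        split_ifs <;> linarith
    · rw [if_neg a]
      split_ifs <;> linarith
  unfold height
  rw [mul_div_assoc']
  refine div_le_div_of_nonneg_right ?_ deg_pos.le
  linarith

theorem conductor_nonneg (x : Fin 3 → K) : 0 ≤ conductor x := by
  unfold conductor
  refine div_nonneg (finsum_nonneg fun v => ?_) deg_pos.le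
  have := log_norm_nonneg v
  split_ifs <;> first | exact this | exact le_refl (0 : ℝ)

/-- **the main construction** -/
theorem lift {p : ℕ} (hp : p.Prime) {x : Fin 3 → K} (h0 : x 0 ≠ 0) (h1 : x 1 ≠ 0) (h2 : x 2 ≠ 0)
    (hs : x 0 + x 1 + x 2 = 0) :
    ∃ (L : Type) (_ : Field L) (_ : NumberField L) (u v : L), u ≠ 0 ∧ v ≠ 0 ∧ u ^ p + v ^ p = 1 ∧
      p * height ![u, v, 1] = height x ∧ rootDisc L ≤ rootDisc K + conductor x + 2 * Real.log p := by
  classical
  set X : K := -x 0 / x 2 with hX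
  have hX0 : X ≠ 0 := div_ne_zero (neg_ne_zero.2 h0) h2
  have hX1 : 1 - X = -x 1 / x 2 := by
    rw [hX]
    field_simp
    linear_combination hs
  have hX1' : X ≠ 1 := by
    intro h
    have : 1 - X = 0 := by rw [h]; ring
    rw [hX1] at this
    exact (div_ne_zero (neg_ne_zero.2 h1) h2) this
  have hval : ∀ v : HeightOneSpectrum (𝓞 K), Bd X v ↔
      ¬ (v.valuation K (x 0) = v.valuation K (x 1) ∧ v.valuation K (x 1) = v.valuation K (x 2)) := by
    intro v
    unfold Bd
    rw [hX1, hX, map_div₀, map_div₀, Valuation.map_neg, Valuation.map_neg]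
    have h2' : v.valuation K (x 2) ≠ 0 := (Valuation.ne_zero_iff _).2 h2
    rw [div_eq_one_iff_eq h2', div_eq_one_iff_eq h2']
    constructor
    · intro h h'
      exact h ⟨h'.1.trans h'.2, h'.2⟩
    · intro h h'
      exact h ⟨h'.1.trans h'.2.symm, h'.2⟩
  set B := (bd_finite hX0 hX1').toFinset with hB
  have hmem : ∀ v, v ∈ B ↔ Bd X v := fun v => by
    rw [hB, Set.Finite.mem_toFinset]
    rfl
  have hcond : conductor x = S K B := by
    rw [conductor_eq x B fun v hv => (hmem v).2 ((hval v).2 hv)]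
    unfold S
    congr 1
    refine Finset.sum_congr rfl fun v hv => ?_
    rw [if_pos ((hval v).1 ((hmem v).1 hv))]
  obtain ⟨L, _, _, _, u, v, hu, hv, hL⟩ := two K hp hX0 hX1' B fun v hv => (hmem v).2 hv
  have hu0 : u ≠ 0 := by
    intro h
    rw [h, zero_pow hp.pos.ne'] at hu
    exact (map_ne_zero (algebraMap K L)).2 hX0 hu.symm
  have hv0 : v ≠ 0 := by
    intro h
    rw [h, zero_pow hp.pos.ne'] at hv
    exact (map_ne_zero (algebraMap K L)).2 (sub_ne_zero.2 (Ne.symm hX1')) hv.symm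
  refine ⟨L, inferInstance, inferInstance, u, v, hu0, hv0, ?_, ?_, ?_⟩
  · rw [hu, hv, map_sub, map_one]
    ring
  · rw [← height_pow, hu, hv]
    have e1 : ![algebraMap K L X, algebraMap K L (1 - X), 1] = fun i => algebraMap K L (![X, 1 - X, 1] i) := by
      funext i
      fin_cases i
      · rfl
      · rfl
      · exact (map_one _).symm
    have e2 : height (fun i => algebraMap K L (![X, 1 - X, 1] i)) = height ![X, 1 - X, 1] := by
      unfold height
      rw [Pool.Agent.Helper259.HtExt.logHeight_ext, finrank_eq (K := K) (L := L)]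
      have hn := deg_pos (K := K)
      have hL' : (0 : ℝ) < Module.finrank K L := by
        have h5 := deg_pos (K := L)
        rw [finrank_eq (K := K) (L := L)] at h5
        exact (pos_iff_pos_of_mul_pos h5).1 deg_pos
      field_simp
    have e3 : ![X, 1 - X, 1] = (-(x 2)⁻¹) • ![x 0, x 1, -x 2] := by
      rw [hX1, hX]
      funext i
      fin_cases i
      · show -x 0 / x 2 = -(x 2)⁻¹ * x 0
        field_simp
      · show -x 1 / x 2 = -(x 2)⁻¹ * x 1
        field_simp
      · show (1 : K) = -(x 2)⁻¹ * (-x 2)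
        field_simp
    have e4 : ![x 0, x 1, x 2] = x := by
      funext i
      fin_cases i <;> rfl
    rw [e1, e2, e3, height_smul _ (neg_ne_zero.2 (inv_ne_zero h2)), height_neg, e4]
  · rw [hcond, rootDisc_eq, rootDisc_eq]
    exact hL

end

/-- **Tiny points suffice.** -/
theorem abc_of_tiny {κ : ℝ} (hκ : 0 ≤ κ) {P : Set ℕ} {ψ : ℕ → ℝ} (hA : Admissible P ψ)
    (h : ∀ ε : ℝ, 0 < ε → ∃ C : ℝ, Tiny P ψ (κ + ε) C) (ε : ℝ) (hε : 0 < ε) :
    ∃ C : ℝ, Abc (κ + ε) (κ + ε) C := by
  obtain ⟨C₁, hC₁⟩ := h (ε / 2) (by positivity)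
  -- the loss
  set s : ℝ := ε / (2 * (κ + ε)) with hs
  have hκε : 0 < κ + ε := by linarith
  have hs0 : 0 < s := by positivity
  have hs1 : 1 - s = (κ + ε / 2) / (κ + ε) := by
    rw [hs]
    field_simp
    ring
  have hs2 : 0 < 1 - s := by
    rw [hs1]
    positivity
  obtain ⟨C₂, hC₂⟩ := hA.fast (s / (2 * (κ + ε / 2))) (by positivity)
  refine ⟨(C₁ + 2 * (κ + ε / 2) * C₂) / (1 - s), fun K _ _ x h0 h1 h2 hsum => ?_⟩
  obtain ⟨p, hp, hpψ, hpl⟩ := hC₂ (height x) (height_nonneg x)
  obtain ⟨L, _, _, u, v, hu, hv, huv, hh, hL⟩ := lift (hA.prime p hp) h0 h1 h2 hsum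
  have h3 := hC₁ L p hp u v hu hv huv (by rw [hh]; exact hpψ)
  rw [hh] at h3
  have hk2 : 0 < κ + ε / 2 := by linarith
  have h4 : (κ + ε / 2) * rootDisc L ≤ (κ + ε / 2) * (rootDisc K + conductor x + 2 * Real.log p) :=
    mul_le_mul_of_nonneg_left hL hk2.le
  have h5 : (κ + ε / 2) * (2 * Real.log p) ≤ s * height x + 2 * (κ + ε / 2) * C₂ := by
    have h6 := mul_le_mul_of_nonneg_left hpl (by positivity : 0 ≤ 2 * (κ + ε / 2))
    have e : 2 * (κ + ε / 2) * (s / (2 * (κ + ε / 2)) * height x + C₂) = s * height x + 2 * (κ + ε / 2) * C₂ := by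
      field_simp
    rw [e] at h6
    linarith
  have h7 : (1 - s) * height x ≤ (κ + ε / 2) * (rootDisc K + conductor x) + (C₁ + 2 * (κ + ε / 2) * C₂) := by
    linarith
  have h8 : height x ≤ ((κ + ε / 2) * (rootDisc K + conductor x) + (C₁ + 2 * (κ + ε / 2) * C₂)) / (1 - s) := by
    rw [le_div_iff₀ hs2]
    linarith
  refine h8.trans (le_of_eq ?_)
  rw [add_div]
  congr 1
  rw [hs1]
  field_simp

theorem tiny_of_weak {α β C : ℝ} (h : Abc α β C) {P : Set ℕ} {ψ : ℕ → ℝ} (hA : Admissible P ψ) :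
    Tiny P ψ α (C + 4 * |β|) := by
  intro K _ _ p hp u v hu hv huv hsmall
  have hp' := hA.prime p hp
  have h1 := h K ![u ^ p, v ^ p, -1] (pow_ne_zero _ hu) (pow_ne_zero _ hv) (neg_ne_zero.2 one_ne_zero) (by
    show u ^ p + v ^ p + -1 = 0
    rw [huv]
    ring)
  rw [height_neg, height_pow] at h1
  have h2 := conductor_le (p := p) hu hv
  have h3 := conductor_nonneg (K := K) ![u ^ p, v ^ p, -1]
  have hp0 : (0 : ℝ) < p := by exact_mod_cast hp'.pos
  have h4 : height ![u, v, 1] ≤ 1 := by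
    have h5 := hsmall.trans (hA.le p hp)
    by_contra hcon
    push Not at hcon
    nlinarith
  have h6 : β * conductor ![u ^ p, v ^ p, -1] ≤ 4 * |β| := by
    calc β * conductor ![u ^ p, v ^ p, -1] ≤ |β| * conductor ![u ^ p, v ^ p, -1] :=
          mul_le_mul_of_nonneg_right (le_abs_self β) h3
      _ ≤ |β| * (4 * 1) := mul_le_mul_of_nonneg_left (by linarith) (abs_nonneg β)
      _ = 4 * |β| := by ring
  linarith

/-- Q1, in the form of the frozen statement S17351 -/
def UniformAbc : Prop :=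
    ∀ ε : ℝ, 0 < ε → ∃ C : ℝ, 0 < C ∧
      ∀ (K : Type) [Field K] [NumberField K], ∀ a b c : K,
        a ≠ 0 → b ≠ 0 → c ≠ 0 → a + b + c = 0 →
        (((FractionalIdeal.absNorm
              (FractionalIdeal.spanSingleton (nonZeroDivisors (𝓞 K)) a
                + FractionalIdeal.spanSingleton (nonZeroDivisors (𝓞 K)) b
                + FractionalIdeal.spanSingleton (nonZeroDivisors (𝓞 K)) c) : ℚ) : ℝ)⁻¹
            * ∏ᶠ τ : K →+* ℂ, max (max ‖τ a‖ ‖τ b‖) ‖τ c‖)
            ^ ((1 : ℝ) / (Module.finrank ℚ K : ℝ))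
          ≤ C * (|(NumberField.discr K : ℝ)| ^ ((1 : ℝ) / (Module.finrank ℚ K : ℝ))) ^ (1 + ε)
              * ((∏ᶠ v : IsDedekindDomain.HeightOneSpectrum (𝓞 K),
                    if v.valuation K a = v.valuation K b ∧ v.valuation K b = v.valuation K c
                    then (1 : ℝ) else (Ideal.absNorm v.asIdeal : ℝ))
                  ^ ((1 : ℝ) / (Module.finrank ℚ K : ℝ))) ^ (1 + ε)

section

variable {K : Type} [Field K] [NumberField K]

theorem bad_finite {a b c : K} (ha : a ≠ 0) (hb : b ≠ 0) (hc : c ≠ 0) :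
    {v : HeightOneSpectrum (𝓞 K) | ¬ (v.valuation K a = v.valuation K b ∧ v.valuation K b = v.valuation K c)}.Finite := by
  refine ((val_finite ha).union ((val_finite hb).union (val_finite hc))).subset fun v hv => ?_
  simp only [Set.mem_ofPred_eq, Set.mem_union] at hv ⊢
  by_contra hcon
  push Not at hcon
  apply hv
  rw [hcon.1, hcon.2.1, hcon.2.2]
  exact ⟨rfl, rfl⟩

theorem log_conductor {a b c : K} (ha : a ≠ 0) (hb : b ≠ 0) (hc : c ≠ 0) :
    0 < (∏ᶠ v : IsDedekindDomain.HeightOneSpectrum (𝓞 K),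
      if v.valuation K a = v.valuation K b ∧ v.valuation K b = v.valuation K c
        then (1 : ℝ) else (Ideal.absNorm v.asIdeal : ℝ)) ∧
    Real.log (∏ᶠ v : IsDedekindDomain.HeightOneSpectrum (𝓞 K),
      if v.valuation K a = v.valuation K b ∧ v.valuation K b = v.valuation K c
        then (1 : ℝ) else (Ideal.absNorm v.asIdeal : ℝ)) / Module.finrank ℚ K = conductor ![a, b, c] := by
  classical
  have hfin := bad_finite ha hb hc
  have e1 : (∏ᶠ v : IsDedekindDomain.HeightOneSpectrum (𝓞 K),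
      if v.valuation K a = v.valuation K b ∧ v.valuation K b = v.valuation K c
        then (1 : ℝ) else (Ideal.absNorm v.asIdeal : ℝ)) = ∏ v ∈ hfin.toFinset,
      if v.valuation K a = v.valuation K b ∧ v.valuation K b = v.valuation K c
        then (1 : ℝ) else (Ideal.absNorm v.asIdeal : ℝ) := by
    refine finprod_eq_prod_of_mulSupport_subset _ ?_
    intro v hv
    rw [Function.mem_mulSupport] at hv
    rw [Set.Finite.coe_toFinset, Set.mem_ofPred_eq]
    intro h
    exact hv (if_pos h)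
  have hpos : ∀ v : HeightOneSpectrum (𝓞 K), (0 : ℝ) < Ideal.absNorm v.asIdeal := fun v =>
    lt_of_le_of_ne (Nat.cast_nonneg _) (norm_ne v).symm
  have hne : ∀ v : HeightOneSpectrum (𝓞 K), (0 : ℝ) <
      if v.valuation K a = v.valuation K b ∧ v.valuation K b = v.valuation K c
        then (1 : ℝ) else (Ideal.absNorm v.asIdeal : ℝ) := by
    intro v
    split_ifs
    · exact one_pos
    · exact hpos v
  rw [e1]
  refine ⟨Finset.prod_pos fun v _ => hne v, ?_⟩
  rw [Real.log_prod (fun v _ => (hne v).ne'), conductor_eq ![a, b, c] hfin.toFinset (by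
    intro v hv
    rw [Set.Finite.mem_toFinset]
    exact hv)]
  congr 1
  refine Finset.sum_congr rfl fun v _ => ?_
  by_cases h : v.valuation K a = v.valuation K b ∧ v.valuation K b = v.valuation K c
  · rw [if_pos h, Real.log_one]
    exact (if_neg (not_not.2 h)).symm
  · rw [if_neg h]
    exact (if_pos h).symm

theorem frozen_iff {a b c : K} (ha : a ≠ 0) (hb : b ≠ 0) (hc : c ≠ 0) (ε C : ℝ) :
    (((FractionalIdeal.absNorm
              (FractionalIdeal.spanSingleton (nonZeroDivisors (𝓞 K)) a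
                + FractionalIdeal.spanSingleton (nonZeroDivisors (𝓞 K)) b
                + FractionalIdeal.spanSingleton (nonZeroDivisors (𝓞 K)) c) : ℚ) : ℝ)⁻¹
            * ∏ᶠ τ : K →+* ℂ, max (max ‖τ a‖ ‖τ b‖) ‖τ c‖)
            ^ ((1 : ℝ) / (Module.finrank ℚ K : ℝ))
          ≤ Real.exp C * (|(NumberField.discr K : ℝ)| ^ ((1 : ℝ) / (Module.finrank ℚ K : ℝ))) ^ (1 + ε)
              * ((∏ᶠ v : IsDedekindDomain.HeightOneSpectrum (𝓞 K),
                    if v.valuation K a = v.valuation K b ∧ v.valuation K b = v.valuation K c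
                    then (1 : ℝ) else (Ideal.absNorm v.asIdeal : ℝ))
                  ^ ((1 : ℝ) / (Module.finrank ℚ K : ℝ))) ^ (1 + ε) ↔
    height ![a, b, c] ≤ (1 + ε) * rootDisc K + (1 + ε) * conductor ![a, b, c] + C := by
  have e1 := mulHeight_ideal ![a, b, c] ha
  have e1' : Height.mulHeight ![a, b, c] = (((FractionalIdeal.absNorm
              (FractionalIdeal.spanSingleton (nonZeroDivisors (𝓞 K)) a
                + FractionalIdeal.spanSingleton (nonZeroDivisors (𝓞 K)) b
                + FractionalIdeal.spanSingleton (nonZeroDivisors (𝓞 K)) c) : ℚ) : ℝ)⁻¹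
            * ∏ᶠ τ : K →+* ℂ, max (max ‖τ a‖ ‖τ b‖) ‖τ c‖) := e1
  rw [← e1']
  obtain ⟨h1, h2⟩ := log_conductor ha hb hc
  set N := (∏ᶠ v : IsDedekindDomain.HeightOneSpectrum (𝓞 K),
                    if v.valuation K a = v.valuation K b ∧ v.valuation K b = v.valuation K c
                    then (1 : ℝ) else (Ideal.absNorm v.asIdeal : ℝ)) with hN
  have hH : 0 < Height.mulHeight ![a, b, c] := Height.mulHeight_pos _
  have hD : 0 < |(NumberField.discr K : ℝ)| := abs_pos.2 (by exact_mod_cast NumberField.discr_ne_zero K)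
  have hX : 0 < Height.mulHeight ![a, b, c] ^ ((1 : ℝ) / (Module.finrank ℚ K : ℝ)) := Real.rpow_pos_of_pos hH _
  have hY1 : 0 < |(NumberField.discr K : ℝ)| ^ ((1 : ℝ) / (Module.finrank ℚ K : ℝ)) := Real.rpow_pos_of_pos hD _
  have hY2 : 0 < N ^ ((1 : ℝ) / (Module.finrank ℚ K : ℝ)) := Real.rpow_pos_of_pos h1 _
  have hY3 : 0 < (|(NumberField.discr K : ℝ)| ^ ((1 : ℝ) / (Module.finrank ℚ K : ℝ))) ^ (1 + ε) :=
    Real.rpow_pos_of_pos hY1 _
  have hY4 : 0 < (N ^ ((1 : ℝ) / (Module.finrank ℚ K : ℝ))) ^ (1 + ε) := Real.rpow_pos_of_pos hY2 _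
  have hY : 0 < Real.exp C * (|(NumberField.discr K : ℝ)| ^ ((1 : ℝ) / (Module.finrank ℚ K : ℝ))) ^ (1 + ε)
              * (N ^ ((1 : ℝ) / (Module.finrank ℚ K : ℝ))) ^ (1 + ε) :=
    mul_pos (mul_pos (Real.exp_pos C) hY3) hY4
  rw [← Real.log_le_log_iff hX hY, Real.log_mul (mul_pos (Real.exp_pos C) hY3).ne' hY4.ne',
    Real.log_mul (Real.exp_pos C).ne' hY3.ne', Real.log_exp, Real.log_rpow hY1, Real.log_rpow hY2,
    Real.log_rpow hH, Real.log_rpow hD, Real.log_rpow h1, ← h2]
  unfold height rootDisc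
  rw [Height.logHeight_eq_log_mulHeight]
  constructor
  · intro h
    refine le_trans (le_of_eq ?_) (h.trans (le_of_eq ?_))
    · ring
    · ring
  · intro h
    refine le_trans (le_of_eq ?_) (h.trans (le_of_eq ?_))
    · ring
    · ring

end

theorem uniformAbc_iff : UniformAbc ↔ ∀ ε : ℝ, 0 < ε → ∃ C : ℝ, Abc (1 + ε) (1 + ε) C := by
  constructor
  · intro h ε hε
    obtain ⟨C, hC0, hC⟩ := h ε hε
    refine ⟨Real.log C, fun K _ _ x h0 h1 h2 hs => ?_⟩
    have h3 := hC K (x 0) (x 1) (x 2) h0 h1 h2 hs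
    have h4 := (frozen_iff (K := K) h0 h1 h2 ε (Real.log C)).1 (by
      rw [Real.exp_log hC0]
      exact h3)
    have e4 : ![x 0, x 1, x 2] = x := by
      funext i
      fin_cases i <;> rfl
    rw [e4] at h4
    exact h4
  · intro h ε hε
    obtain ⟨C, hC⟩ := h ε hε
    refine ⟨Real.exp C, Real.exp_pos C, fun K _ _ a b c ha hb hc hs => ?_⟩
    exact (frozen_iff (K := K) ha hb hc ε C).2 (hC K ![a, b, c] ha hb hc hs)

/-- sets of primes with polynomially bounded gaps -/
theorem admissible (P : Set ℕ) (ψ : ℕ → ℝ) (A : ℝ) (hP : ∀ p ∈ P, p.Prime)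
    (hgap : ∀ t : ℝ, 2 ≤ t → ∃ p ∈ P, t ≤ (p : ℝ) ∧ (p : ℝ) ≤ t ^ A) (hle : ∀ p ∈ P, ψ p ≤ p)
    (hlim : Tendsto (fun p : ℕ => ψ p / Real.log p) (atTop ⊓ 𝓟 P) atTop) : Admissible P ψ := by
  refine ⟨hP, hle, fun ε hε => ?_⟩
  have hA : 1 ≤ A := by
    obtain ⟨p, -, h1, h2⟩ := hgap 2 le_rfl
    by_contra hcon
    push Not at hcon
    have h3 : (2 : ℝ) ^ A < 2 ^ (1 : ℝ) := Real.rpow_lt_rpow_of_exponent_lt (by norm_num) hcon
    rw [Real.rpow_one] at h3
    linarith
  have hA0 : 0 < A := by linarith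
  have hev := hlim.eventually (eventually_ge_atTop (A / ε))
  rw [eventually_inf_principal, eventually_atTop] at hev
  obtain ⟨N, hN⟩ := hev
  set Y : ℝ := max (N : ℝ) 2 with hY
  have hY2 : 2 ≤ Y := le_max_right _ _
  refine ⟨A * Real.log Y, fun t ht => ?_⟩
  set y : ℝ := Real.exp (ε * t / A) with hy
  have hy1 : 1 ≤ y := Real.one_le_exp (by positivity)
  have hyY : 2 ≤ Y * y := by nlinarith
  obtain ⟨p, hp, h1, h2⟩ := hgap (Y * y) hyY
  have hpY : Y ≤ p := by nlinarith
  have hpN : N ≤ p := by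
    have h3 : (N : ℝ) ≤ p := (le_max_left _ _).trans hpY
    exact_mod_cast h3
  have hpy : y ≤ p := by nlinarith
  have hp2 : (2 : ℝ) ≤ p := hY2.trans hpY
  have hlogp : 0 < Real.log p := Real.log_pos (by linarith)
  have h3 := hN p hpN hp
  rw [le_div_iff₀ hlogp] at h3
  refine ⟨p, hp, ?_, ?_⟩
  · have h4 : ε * t / A ≤ Real.log p := by
      rw [Real.le_log_iff_exp_le (by linarith)]
      exact hpy
    have h5 : A / ε * (ε * t / A) ≤ A / ε * Real.log p := mul_le_mul_of_nonneg_left h4 (by positivity)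
    have h6 : A / ε * (ε * t / A) = t := by field_simp
    linarith
  · have h4 : Real.log p ≤ Real.log ((Y * y) ^ A) := Real.log_le_log (by linarith) h2
    rw [Real.log_rpow (by linarith), Real.log_mul (by linarith) (by linarith), hy, Real.log_exp] at h4
    have h5 : A * (Real.log Y + ε * t / A) = ε * t + A * Real.log Y := by
      field_simp
      ring
    linarith

/-- The uniform abc conjecture (`κ = 1`), and the same with any other exponent `κ ≥ 0`, is equivalent to the version in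
which the exponent of the conductor is arbitrary, and to the inequality without conductor for the points of height at
most `ψ (p) / p` on the Fermat curves of degrees `p ∈ P`. Here `P` can be every set of primes with polynomially bounded
gaps and `ψ` every function with `ψ (p) ≤ p` and `ψ (p) / log p → ∞` on it. -/
theorem result :
    (UniformAbc ↔ ∀ ε : ℝ, 0 < ε → ∃ C : ℝ, Abc (1 + ε) (1 + ε) C) ∧
    (∀ κ : ℝ, 0 ≤ κ → ∀ (P : Set ℕ) (ψ : ℕ → ℝ), Admissible P ψ → List.TFAE [
      ∀ ε : ℝ, 0 < ε → ∃ C : ℝ, Abc (κ + ε) (κ + ε) C,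
      ∀ ε : ℝ, 0 < ε → ∃ M C : ℝ, Abc (κ + ε) M C,
      ∀ ε : ℝ, 0 < ε → ∃ C : ℝ, Tiny P ψ (κ + ε) C]) ∧
    ∀ (P : Set ℕ) (ψ : ℕ → ℝ) (A : ℝ), (∀ p ∈ P, p.Prime) →
      (∀ t : ℝ, 2 ≤ t → ∃ p ∈ P, t ≤ (p : ℝ) ∧ (p : ℝ) ≤ t ^ A) → (∀ p ∈ P, ψ p ≤ p) →
      Tendsto (fun p : ℕ => ψ p / Real.log p) (atTop ⊓ 𝓟 P) atTop → Admissible P ψ := by
  refine ⟨uniformAbc_iff, fun κ hκ P ψ hA => ?_, admissible⟩
  tfae_have 1 → 2 := fun h ε hε => by
    obtain ⟨C, hC⟩ := h ε hε
    exact ⟨_, C, hC⟩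
  tfae_have 2 → 3 := fun h ε hε => by
    obtain ⟨M, C, hC⟩ := h ε hε
    exact ⟨_, tiny_of_weak hC hA⟩
  tfae_have 3 → 1 := fun h ε hε => abc_of_tiny hκ hA h ε hε
  tfae_finish

end Pool.Agent.Results.MP_6e34ef_nt.TinyFermatPoints
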